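import Pool.Agent.Helper98.OrdLower
import Pool.Agent.Helper6.HJ.Collect

/-!
# Largest cliques for pairwise non-harmonious patterns in random ordered matchings

For every `r ≥ 2` and every set `Pt` of pairwise non-harmonious `r`-patterns (of any cardinality,
in particular of cardinality three), at least one of which is collectable, the largest `Pt`-clique
in a uniformly random ordered `r`-matching of size `n` has `Θ(n^(1/r))` edges a.a.s.
-/

namespace Pool.Agent.Results.MP_d24be6_pr.NonHarmoniousCliques

open Filter Topology Finset Pool.Agent.Helper98.OM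

/-! ### Sanity check: the composition is well defined -/

/-- The composition of a pattern is unique. -/
lemma splitsAs_unique {P : List Bool} {μ : List ℕ} (h : SplitsAs P μ) :
    ∀ {μ' : List ℕ}, SplitsAs P μ' → μ = μ' := by
  induction h with
  | nil =>
    intro μ' h'
    generalize hP : ([] : List Bool) = P' at h'
    cases h' with
    | nil => rfl
    | cons c' t' w' μ'' ht' hw' =>
      exfalso
      have := congrArg List.length hP
      simp at this
      omega
  | cons c t w μ ht hw ih =>
    intro μ' h'
    generalize hP : List.replicate t c ++ List.replicate t (!c) ++ w = P' at h'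
    cases h' with
    | nil =>
      exfalso
      have := congrArg List.length hP
      simp at this
      omega
    | cons c' t' w' μ'' ht' hw' =>
      have hget : ∀ i : ℕ, (List.replicate t c ++ List.replicate t (!c) ++ w)[i]? =
          (List.replicate t' c' ++ List.replicate t' (!c') ++ w')[i]? := by
        intro i; rw [hP]
      have hg1 : ∀ (t : ℕ) (c : Bool) (w : List Bool) (i : ℕ), i < t →
          (List.replicate t c ++ List.replicate t (!c) ++ w)[i]? = some c := by
        intro t c w i hi
        rw [List.append_assoc, List.getElem?_append_left (by simpa using hi)]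
        simp [hi]
      have hg2 : ∀ (t : ℕ) (c : Bool) (w : List Bool), 1 ≤ t →
          (List.replicate t c ++ List.replicate t (!c) ++ w)[t]? = some (!c) := by
        intro t c w ht
        rw [List.append_assoc, List.getElem?_append_right (by simp)]
        rw [List.getElem?_append_left (by simp; omega)]
        simp [show 0 < t by omega]
      have hcc : c = c' := by
        have h1 := hget 0
        rw [hg1 t c w 0 (by omega), hg1 t' c' w' 0 (by omega)] at h1
        exact Option.some.inj h1
      subst hcc
      have htt : t = t' := by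
        rcases lt_trichotomy t t' with h | h | h
        · exfalso
          have h1 := hget t
          rw [hg2 t c w ht, hg1 t' c w' t h] at h1
          have := Option.some.inj h1
          cases c <;> simp at this
        · exact h
        · exfalso
          have h1 := hget t'
          rw [hg2 t' c w' ht', hg1 t c w t' h] at h1
          have := Option.some.inj h1
          cases c <;> simp at this
      subst htt
      have hww : w = w' := List.append_cancel_left hP
      subst hww
      rw [ih hw']

/-! ### Sanity check: collectable patterns are those with arbitrarily large cliques -/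

/-- The form of collectability used here (`P` splits into blocks) is equivalent to the definition in
the problem file: there are arbitrarily large `{P}`-cliques. -/
lemma collectable_iff {r : ℕ} (hr : 0 < r) {P : List Bool} (hP : IsRPattern r P) :
    Collectable P ↔ ∀ k : ℕ, ∃ n : ℕ, k ≤ n ∧ ∃ M : OrdMatching r n, IsClique {P} M.1.parts :=
  Pool.Agent.Helper6.HJ.collectable_iff hr hP

/-! ### Elementary properties of `prob` -/

lemma nonempty_matching {r n : ℕ} (hr : 0 < r) : Nonempty (OrdMatching r n) :=
  ⟨toOM hr (Fintype.equivOfCardEq (by simp [mul_comm]))⟩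

lemma card_pos {r n : ℕ} (hr : 0 < r) : (0 : ℝ) < (Nat.card (OrdMatching r n) : ℝ) := by
  have := nonempty_matching (n := n) hr
  exact_mod_cast Nat.card_pos

lemma prob_mono {r n : ℕ} {Q Q' : OrdMatching r n → Prop} (h : ∀ M, Q M → Q' M) :
    prob r n Q ≤ prob r n Q' := by
  unfold prob
  apply div_le_div_of_nonneg_right _ (by positivity)
  have : Nat.card {M : OrdMatching r n // Q M} ≤ Nat.card {M : OrdMatching r n // Q' M} :=
    Nat.card_le_card_of_injective (fun M => ⟨M.1, h _ M.2⟩) (by
      intro x y hxy
      exact Subtype.ext (congrArg (fun z : {M : OrdMatching r n // Q' M} => z.1) hxy))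
  exact_mod_cast this

lemma prob_nonneg {r n : ℕ} (Q : OrdMatching r n → Prop) : 0 ≤ prob r n Q := by
  unfold prob; positivity

lemma prob_le_one {r n : ℕ} (hr : 0 < r) (Q : OrdMatching r n → Prop) : prob r n Q ≤ 1 := by
  unfold prob
  rw [div_le_one (card_pos hr)]
  have : Nat.card {M : OrdMatching r n // Q M} ≤ Nat.card (OrdMatching r n) :=
    Nat.card_le_card_of_injective Subtype.val Subtype.val_injective
  exact_mod_cast this

lemma one_le_prob_add {r n : ℕ} (hr : 0 < r) (Q Q₁ Q₂ : OrdMatching r n → Prop)
    (h : ∀ M, Q M ∨ Q₁ M ∨ Q₂ M) : 1 ≤ prob r n Q + prob r n Q₁ + prob r n Q₂ := by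
  classical
  unfold prob
  rw [← add_div, ← add_div, one_le_div (card_pos hr)]
  have hc : ∀ R : OrdMatching r n → Prop,
      Nat.card {M : OrdMatching r n // R M} = (univ.filter R).card := by
    intro R
    rw [Nat.card_eq_fintype_card, Fintype.card_subtype R]
  rw [hc Q, hc Q₁, hc Q₂, Nat.card_eq_fintype_card]
  have h1 : (univ : Finset (OrdMatching r n)) ⊆
      (univ.filter Q ∪ univ.filter Q₁) ∪ univ.filter Q₂ := by
    intro M _
    rcases h M with h | h | h
    · simp [h]
    · simp [h]
    · simp [h]
  have h2 := (Finset.card_le_card h1).trans ((Finset.card_union_le _ _).trans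
    (Nat.add_le_add_right (Finset.card_union_le _ _) _))
  rw [Finset.card_univ] at h2
  exact_mod_cast h2

lemma maxClique_le {r n : ℕ} (hr : 0 < r) (Pt : Set (List Bool)) (M : OrdMatching r n) :
    maxClique Pt M ≤ n := by
  classical
  unfold maxClique
  apply Finset.sup_le
  intro C hC
  rw [Finset.mem_filter, Finset.mem_powerset] at hC
  exact (Finset.card_le_card hC.1).trans (card_parts hr M).le

/-! ### The main theorem -/

/-- For all `r ≥ 2` and every set `Pt` of pairwise non-harmonious `r`-patterns, at least one of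
which is collectable, a.a.s. the largest `Pt`-clique in a uniformly random ordered `r`-matching of
size `n` has between `c n^(1/r)` and `C n^(1/r)` edges, for suitable constants `0 < c ≤ C`. -/
theorem result (r : ℕ) (hr : 2 ≤ r) (Pt : Set (List Bool)) (hPt : ∀ P ∈ Pt, IsRPattern r P)
    (hharm : ∀ P ∈ Pt, ∀ Q ∈ Pt, P ≠ Q → ¬ Harmonious P Q) (hcoll : ∃ P ∈ Pt, Collectable P) :
    ∃ c C : ℝ, 0 < c ∧ c ≤ C ∧ Tendsto (fun n : ℕ => prob r n (fun M =>
      c * (n : ℝ) ^ (1 / (r : ℝ)) ≤ (maxClique Pt M : ℝ) ∧
        (maxClique Pt M : ℝ) ≤ C * (n : ℝ) ^ (1 / (r : ℝ)))) atTop (𝓝 1) := by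
  have hr0 : 0 < r := by omega
  have hrr : (0 : ℝ) < r := by exact_mod_cast hr0
  obtain ⟨D, hD, hup⟩ := upper_tail hr0 Pt hharm
  obtain ⟨P, hP, μ, hμ⟩ := hcoll
  set ρ : ℝ := Real.exp (-(1 / (r : ℝ) ^ r)) with hρ
  have hρ1 : ρ < 1 := by
    rw [hρ, Real.exp_lt_one_iff]
    have : (0 : ℝ) < 1 / (r : ℝ) ^ r := by positivity
    linarith
  have hρ0 : 0 < ρ := Real.exp_pos _
  set c : ℝ := (1 - ρ) / 8 with hc
  have hc0 : 0 < c := by rw [hc]; linarith
  set C : ℝ := 2 * D + 1 with hC
  have hcC : c ≤ C := by
    have : c ≤ 1 := by rw [hc]; linarith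
    linarith
  refine ⟨c, C, hc0, hcC, ?_⟩
  set y : ℕ → ℝ := fun n => (n : ℝ) ^ (1 / (r : ℝ)) with hy
  have hy0 : ∀ n, 0 ≤ y n := fun n => by rw [hy]; positivity
  have hyr : ∀ n, y n ^ r = n := by
    intro n
    rw [hy]
    simp only
    rw [← Real.rpow_natCast, ← Real.rpow_mul (by positivity), one_div_mul_cancel hrr.ne',
      Real.rpow_one]
  have hytend : Tendsto y atTop atTop := by
    rw [hy]
    exact (tendsto_rpow_atTop (by positivity)).comp tendsto_natCast_atTop_atTop
  set K : ℕ → ℕ := fun n => ⌊C * y n⌋₊ + 1 with hK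
  set k : ℕ → ℕ := fun n => ⌊y n⌋₊ with hk
  have hktend : Tendsto (fun n => (k n : ℝ)) atTop atTop := by
    exact tendsto_natCast_atTop_atTop.comp (tendsto_nat_floor_atTop.comp hytend)
  have hKtend : Tendsto K atTop atTop := by
    have h1 : Tendsto (fun n => C * y n) atTop atTop := hytend.const_mul_atTop (by linarith)
    exact tendsto_atTop_mono (fun n => Nat.le_succ _) (tendsto_nat_floor_atTop.comp h1)
  -- upper tail
  have hupper : ∀ n, prob r n (fun M => K n ≤ maxClique Pt M) ≤ 2 * (1 / 2 : ℝ) ^ K n := by
    intro n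
    by_cases hKn : K n ≤ n
    · refine (hup n (K n) (by simp [hK]) hKn).trans ?_
      apply mul_le_mul_of_nonneg_left _ (by norm_num)
      apply pow_le_pow_left₀ (by positivity)
      have hKpos : (0 : ℝ) < (K n : ℝ) := by
        have : 0 < K n := by simp [hK]
        exact_mod_cast this
      rw [div_le_div_iff₀ (by positivity) (by norm_num)]
      have h1 : C * y n ≤ K n := by
        rw [hK]; push_cast; exact (Nat.lt_floor_add_one _).le
      have h2 : (C * y n) ^ r ≤ (K n : ℝ) ^ r :=
        pow_le_pow_left₀ (mul_nonneg (by linarith) (hy0 n)) h1 r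
      rw [mul_pow, hyr] at h2
      have h3 : C ≤ C ^ r := le_self_pow₀ (by linarith) (by omega)
      have h4 : C * (n : ℝ) ≤ C ^ r * n := mul_le_mul_of_nonneg_right h3 (by positivity)
      have h5 : 2 * D * n ≤ C * (n : ℝ) :=
        mul_le_mul_of_nonneg_right (by linarith) (by positivity)
      linarith
    · have h0 : prob r n (fun M => K n ≤ maxClique Pt M) = 0 := by
        unfold prob
        have : IsEmpty {M : OrdMatching r n // K n ≤ maxClique Pt M} := by
          constructor
          rintro ⟨M, hM⟩
          exact hKn (hM.trans (maxClique_le hr0 Pt M))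
        simp
      rw [h0]; positivity
  -- lower tail
  have hlower : ∀ᶠ n in atTop, prob r n (fun M => (maxClique Pt M : ℝ) < c * y n) ≤
      8 / ((k n : ℝ) * (1 - ρ) ^ 2) := by
    have hev : ∀ᶠ n in atTop, 4 / (1 - ρ) ≤ (k n : ℝ) ∧ (1 : ℝ) ≤ k n :=
      (hktend.eventually_ge_atTop _).and (hktend.eventually_ge_atTop _)
    filter_upwards [hev] with n hn
    obtain ⟨hn1, hn2⟩ := hn
    have hk1 : 0 < k n := by
      have : (0 : ℝ) < (k n : ℝ) := by linarith
      exact_mod_cast this
    have hkn : k n ^ r ≤ n := by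
      have h1 : (k n : ℝ) ≤ y n := Nat.floor_le (hy0 n)
      have h2 : (k n : ℝ) ^ r ≤ y n ^ r := pow_le_pow_left₀ (by positivity) h1 r
      rw [hyr] at h2
      exact_mod_cast h2
    have hρp : 0 < 1 - ρ := by linarith
    refine (prob_mono ?_).trans (lower_tail hr0 hP (hPt P hP) hμ n (k n)
      ⌊(k n : ℝ) * (1 - ρ) / 2⌋₊ hk1 hkn ρ hρ (Nat.floor_le (by positivity)))
    intro M hM
    rw [Nat.lt_iff_add_one_le]
    have h1 : y n < k n + 1 := Nat.lt_floor_add_one _
    have h2 : (k n : ℝ) * (1 - ρ) / 2 < ⌊(k n : ℝ) * (1 - ρ) / 2⌋₊ + 1 := Nat.lt_floor_add_one _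
    have h3 : c * y n ≤ (k n : ℝ) * (1 - ρ) / 4 := by
      rw [hc]
      have : y n ≤ 2 * k n := by linarith
      nlinarith
    have h4 : 4 ≤ (k n : ℝ) * (1 - ρ) := by
      rw [div_le_iff₀ hρp] at hn1
      exact hn1
    have h5 : (maxClique Pt M : ℝ) < (⌊(k n : ℝ) * (1 - ρ) / 2⌋₊ : ℝ) := by linarith
    have h6 : maxClique Pt M < ⌊(k n : ℝ) * (1 - ρ) / 2⌋₊ := by exact_mod_cast h5
    exact h6
  -- conclusion
  have hlim1 : Tendsto (fun n => 2 * (1 / 2 : ℝ) ^ K n) atTop (𝓝 0) := by
    have h1 : Tendsto (fun n => (1 / 2 : ℝ) ^ K n) atTop (𝓝 0) :=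
      (tendsto_pow_atTop_nhds_zero_of_lt_one (by norm_num) (by norm_num)).comp hKtend
    simpa using h1.const_mul 2
  have hlim2 : Tendsto (fun n => 8 / ((k n : ℝ) * (1 - ρ) ^ 2)) atTop (𝓝 0) := by
    apply Tendsto.const_div_atTop
    apply Tendsto.atTop_mul_const _ hktend
    have : 0 < 1 - ρ := by linarith
    positivity
  have hlim : Tendsto (fun n => 1 - (2 * (1 / 2 : ℝ) ^ K n + 8 / ((k n : ℝ) * (1 - ρ) ^ 2)))
      atTop (𝓝 1) := by
    have := (hlim1.add hlim2).const_sub 1
    simpa using this
  apply tendsto_of_tendsto_of_tendsto_of_le_of_le' hlim tendsto_const_nhds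
  · filter_upwards [hlower] with n hn
    have h1 := one_le_prob_add hr0 (fun M : OrdMatching r n =>
      c * (n : ℝ) ^ (1 / (r : ℝ)) ≤ (maxClique Pt M : ℝ) ∧
        (maxClique Pt M : ℝ) ≤ C * (n : ℝ) ^ (1 / (r : ℝ)))
      (fun M => K n ≤ maxClique Pt M) (fun M => (maxClique Pt M : ℝ) < c * y n) (by
        intro M
        by_cases h2 : (maxClique Pt M : ℝ) < c * y n
        · exact Or.inr (Or.inr h2)
        · by_cases h3 : K n ≤ maxClique Pt M
          · exact Or.inr (Or.inl h3)
          · left
            refine ⟨not_lt.1 h2, ?_⟩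
            rw [hK] at h3
            simp only [not_le] at h3
            have h4 : maxClique Pt M ≤ ⌊C * y n⌋₊ := by omega
            exact (Nat.le_floor_iff (mul_nonneg (by linarith) (hy0 n))).1 h4)
    have h2 := hupper n
    linarith
  · exact Eventually.of_forall (fun n => prob_le_one hr0 _)

end Pool.Agent.Results.MP_d24be6_pr.NonHarmoniousCliques
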